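import Pool.Agent.H41.Rb2

set_option autoImplicit false

open Pool.Agent.H41.Rb

/-- For every `δ ∈ (0,1]` and every `s < 2 - δ/2` there is a continuous `1`-periodic real `g`
satisfying (H) and (NV) such that the graph of `G_δ` has upper box dimension at least `s` and
strictly larger than `7/4 - δ/2`. -/
theorem Pool.Agent.Results.MP_dace02_an.No.result :
    ∀ δ : ℝ, 0 < δ → δ ≤ 1 → ∀ s : ℝ, s < 2 - δ / 2 →
      ∃ g : ℝ → ℝ, Continuous g ∧ Function.Periodic g 1 ∧ CondH δ g ∧ CondNV δ g ∧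
        (s : EReal) ≤ upperBox (G δ g) ∧ ((7 / 4 - δ / 2 : ℝ) : EReal) < upperBox (G δ g) := by
  intro δ hδ _ s hs
  obtain ⟨g, h1, h2, h3, h4, h5⟩ := main δ hδ (max s (15 / 8 - δ / 2)) (max_lt hs (by linarith))
  refine ⟨g, h1, h2, h3, h4, le_trans ?_ h5, lt_of_lt_of_le ?_ h5⟩
  · exact EReal.coe_le_coe_iff.2 (le_max_left _ _)
  · exact EReal.coe_lt_coe_iff.2 (lt_of_lt_of_le (by linarith) (le_max_right _ _))
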